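import Pool.Agent.X143.SD.FIN
import Pool.Agent.X151.SD.CNT
import Pool.Agent.X60.SD.MOD
import Pool.Agent.X50.SDO.ONE
import Pool.Agent.X150.SD.ITR
import Pool.Agent.X56.SD.Cons
import Pool.Agent.X98.SD.ODE
import Pool.Agent.X240.SD.BB
import Pool.Agent.H329.SD.AA

/-!
# Longer lists can hurt the last student when every school has two seats
(Q1 of MP_28dd6c_pr: disproved, q = 2)

`prM q n d i` is the probability that student `i + 1` is matched under Serial Dictatorship with `n`
schools of `q` seats and uniformly random lists of `d` distinct schools: the average, over the lists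
`L 0, ..., L (i - 1)` of the first `i` students and the list `e` of student `i + 1` (all lists are
elements of `Fin d ↪ Fin n`), of the indicator that `e` contains a school which still has a free seat.

Proof. For `q = 2` the numbers of empty schools and of schools with one student form a Markov chain
(`CNT`, `MOD`) which stays within `O(1/√n)` in mean square of the solution of a differential equation
(`ONE`, `ITR`, `CON`, `ODE`), so the unmatched probability of student `2 n` tends to
`g_d = c(u)^d`, `c(u) = P(Poisson(u) ≥ 2)`, where `u` solves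
`∫_0^u ds / (1 + c(s) + ... + c(s)^(d-1)) = 2`. Two integral estimates give `g_1000 < 1/2` (`BB`) and
`g_ℓ → 1/2` (`AA`).
-/

namespace Pool.Agent.Results.MP_28dd6c_pr.LongerListsHurt

open Pool.Agent.X143.SD

theorem result : ∃ d : ℕ, 1 ≤ d ∧ ∃ L ≥ d, ∀ ℓ ≥ L, ∃ N ≥ ℓ, ∀ n ≥ N,
    prM 2 n ℓ (2 * n - 1) < prM 2 n d (2 * n - 1) :=
  t_FIN (Pool.Agent.X60.SD.t_MOD Pool.Agent.X151.SD.t)
    (Pool.Agent.X56.SD.t_CON (Pool.Agent.X150.SD.t_ITR Pool.Agent.X50.SDO.t_ONE))
    Pool.Agent.X98.SD.t_ODE Pool.Agent.X240.SD.t_BB Pool.Agent.H329.SD.t_AA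

end Pool.Agent.Results.MP_28dd6c_pr.LongerListsHurt
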